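import Pool.Agent.Helper90.KOM.Defs
import Pool.Agent.Helper38.ZS.Stmts

/-!
# Komlos: statements of the modules (real matrix versions of Helper3.NFR)
-/

namespace Pool.Agent.Helper90.KOM

open Finset
open scoped Classical
open Pool.Agent.Helper3.NFR (ph ps J0 dn sw TT EE c0 Ga)

noncomputable section

/-- 2. the integrals exist -/
def ST_INT : Prop :=
  ∀ (V R : Type) [Fintype V] [Fintype R] (a : V → R → ℝ) (b c : ℝ) (lam : R → ℝ) (s : V → ℝ)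
    (T E : Finset V), 0 ≤ b → 0 ≤ c → (∀ S, 0 < lam S) →
    MeasureTheory.Integrable (wt a b c lam s T E) ∧ 0 < ZZ a b c lam s T E ∧
    ∫ y : R → ℝ, ∏ S, dn (lam S) (y S) = 1

/-- 3. happiness gives domination and leverage -/
def ST_DOM : Prop :=
  ∀ (V R : Type) [Fintype V] [Fintype R] (a : V → R → ℝ) (b c : ℝ) (lam : R → ℝ) (s : V → ℝ)
    (T E : Finset V), 0 < b → 0 ≤ c → (∀ S, 0 < lam S) →
    (∀ u ∈ E, Happy a b c (1 / 100) lam s T E u) →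
    (∀ y : R → ℝ, b * c / 2 * ∑ u ∈ E, ph (fn a u y) ≤
      2 * ∑ S, ps (lam S * y S) + b * ∑ v ∈ T, ph (s v * fn a v y)) ∧
    (∀ u ∈ E, ∀ y : R → ℝ, (fn a u y) ^ 2 ≤
      2 * ∑ S, (lam S * y S) ^ 2 + b * ∑ v ∈ T, (s v * fn a v y) ^ 2)

/-- 5. pointwise comparison -/
def ST_CMP : Prop :=
  ∀ (V R : Type) [Fintype V] [Fintype R] (a : V → R → ℝ) (b c K : ℝ) (lam lam' : R → ℝ)
    (s s' : V → ℝ) (T E T' E' : Finset V), 0 ≤ b → 0 ≤ c → (∀ S, 0 < lam S) → (∀ S, 0 < lam' S) →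
    (∀ y, wt a b c lam' s' T' E' y ≤ Real.exp K * wt a b c lam s T E y) →
    Real.log (ZZ a b c lam' s' T' E') ≤ K + Real.log (ZZ a b c lam s T E)

/-- 6. an unhappy element is raised: gain -/
def ST_GAIN : Prop :=
  ∀ (V R : Type) [Fintype V] [Fintype R] (a : V → R → ℝ) (b c ε : ℝ) (lam : R → ℝ) (s s' : V → ℝ)
    (T E : Finset V) (u : V), 0 ≤ b → b ≤ 1 → 0 ≤ c → 0 ≤ ε → (∀ S, 0 < lam S) → u ∈ E → u ∉ T →
    s' u = 1 → (∀ v, v ≠ u → s' v = s v) → ¬ Happy a b c ε lam s T E u →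
    Real.log (ZZ a b c lam s' (insert u T) (E.erase u)) ≤ Real.log (ZZ a b c lam s T E) - b * ε / 2

/-- 7. lower bound of the partition function -/
def ST_LOW : Prop :=
  ∃ C : ℝ, 0 < C ∧ ∀ (V R : Type) [Fintype V] [Fintype R] (a : V → R → ℝ) (b c l0 : ℝ)
    (x : R → ℝ) (s : V → ℝ) (T E : Finset V), 0 ≤ b → 0 ≤ c → 0 < l0 →
    (∀ v, ∑ S, (a v S) ^ 2 ≤ 1) → (∀ S, 0 ≤ x S) → (∀ v, 0 ≤ s v) → (∀ v, s v ≤ 1) →
    - (∑ S, x S) - C * b / l0 ^ 2 * T.card ≤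
      Real.log (ZZ a b c (fun S => l0 / (1 + x S)) s T E)

/-- 8. upper bound of the partition function -/
def ST_UP : Prop :=
  ∀ (V R : Type) [Fintype V] [Fintype R] (a : V → R → ℝ) (b c : ℝ) (lam : R → ℝ) (s : V → ℝ)
    (T E : Finset V), 0 ≤ b → 0 ≤ c → (∀ S, 0 < lam S) →
    Real.log (ZZ a b c lam s T E) ≤ b * c * E.card

/-- 9. the rank function -/
def ST_RANK : Prop :=
  ∀ b : ℝ, 0 < b → b ≤ 1 → ∃ δ l0 : ℝ, 0 < δ ∧ δ ≤ 1 ∧ 0 < l0 ∧ ∀ (V R : Type) [Fintype V] [Fintype R]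
    (a : V → R → ℝ), (∀ v, ∑ S, (a v S) ^ 2 ≤ 1) → ∃ k : V → ℕ,
      ∀ i, ∀ u ∈ EE k i, Happy a b c0 (1 / 100) (lam a l0 δ k i) (sw k i) (TT k i) (EE k i) u

/-- 10. sum of the errors of a row over all levels: `W i` is geometric, `r i` is the mass -/
def ST_ERR : Prop :=
  ∀ (γ l0 δ : ℝ), 0 < γ → 0 < l0 → 0 < δ → ∃ C : ℝ, 0 < C ∧ ∀ (W r : ℕ → ℝ), (∀ i, 0 ≤ r i) →
    (∀ i, r i ≤ W i) → (∀ i, 40 * W (i + 1) ≤ W i) → ∀ N : ℕ,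
    ∑ i ∈ range N, l0 / (1 + δ * W i) * (min 1 (r i / (l0 / (1 + δ * W i)) ^ 2)) ^ γ ≤ C

end

end Pool.Agent.Helper90.KOM
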