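import Pool.Agent.Helper3.NFR.Rat

/-!
# Komlos: definitions, real matrices

`a v S` is the entry of the element (column) `v` in the row `S`.
One level of the static construction: `T` are the reserve elements (weights `s`), `E` the elements
coloured at this level, `lam` the inverse tolerances of the rows.
-/

namespace Pool.Agent.Helper90.KOM

open Finset
open scoped Classical
open Pool.Agent.Helper3.NFR (ph ps J0 dn sw TT EE c0 Ga)

noncomputable section

variable {V R : Type} [Fintype V] [Fintype R]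

/-- the functional of the element `v` -/
def fn (a : V → R → ℝ) (v : V) (y : R → ℝ) : ℝ := ∑ S, a v S * y S

/-- the exponent of the elements -/
def xp (a : V → R → ℝ) (c : ℝ) (s : V → ℝ) (T E : Finset V) (y : R → ℝ) : ℝ :=
  c * ∑ u ∈ E, ph (fn a u y) - ∑ v ∈ T, ph (s v * fn a v y)

/-- the weight function -/
def wt (a : V → R → ℝ) (b c : ℝ) (lam : R → ℝ) (s : V → ℝ) (T E : Finset V) (y : R → ℝ) : ℝ :=
  (∏ S, dn (lam S) (y S)) * Real.exp (b * xp a c s T E y)

/-- the partition function -/
def ZZ (a : V → R → ℝ) (b c : ℝ) (lam : R → ℝ) (s : V → ℝ) (T E : Finset V) : ℝ :=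
  ∫ y : R → ℝ, wt a b c lam s T E y

/-- an element `u` is happy -/
def Happy (a : V → R → ℝ) (b c ε : ℝ) (lam : R → ℝ) (s : V → ℝ) (T E : Finset V) (u : V) : Prop :=
  ∫ y : R → ℝ, ph (fn a u y) * wt a b c lam s T E y ≤ ε * ZZ a b c lam s T E

/-- the mass of the row `S` on the set `X` of elements -/
def rr (a : V → R → ℝ) (X : Finset V) (S : R) : ℝ := ∑ v ∈ X, (a v S) ^ 2

/-- the look-ahead mass of the row `S` at level `i` -/
def ww (a : V → R → ℝ) (k : V → ℕ) (i : ℕ) (S : R) : ℝ :=
  ∑ v ∈ Finset.univ.filter (fun v => i ≤ k v), (a v S) ^ 2 * 40 ^ (k v - i)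

/-- inverse tolerance of a row at level `i` -/
def lam (a : V → R → ℝ) (l0 δ : ℝ) (k : V → ℕ) (i : ℕ) (S : R) : ℝ :=
  l0 / (1 + δ * ww a k i S)

end

end Pool.Agent.Helper90.KOM
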