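import Pool.Agent.Helper90.KOM.Stmts
import Pool.Agent.Helper3.NFR.Rank2

/-! # module 9: the rank function (real matrices, ridges by geometric look-ahead) -/

namespace Pool.Agent.Helper90.KOM

open Finset MeasureTheory
open scoped Classical
open Pool.Agent.Helper3.NFR (ph ps J0 dn sw TT EE c0 Ga up up_self up_ne up_ge sw_ne TT_up EE_up
  EE_up1 TT_up0 EE_up0 Ga_pos c0_pos geo ite_sum TT_sum dn_nonneg J0_pos ph_nonneg ph_le_one)

variable {V R : Type} [Fintype V] [Fintype R]

/-! ## the look-ahead mass -/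

omit [Fintype R] in
theorem ww_eq (a : V → R → ℝ) (k : V → ℕ) (i : ℕ) (S : R) :
    ww a k i S = ∑ v, (if i ≤ k v then (a v S) ^ 2 * 40 ^ (k v - i) else 0) := by
  unfold ww
  rw [Finset.sum_filter]

omit [Fintype R] in
theorem ww_nonneg (a : V → R → ℝ) (k : V → ℕ) (i : ℕ) (S : R) : 0 ≤ ww a k i S := by
  unfold ww
  exact Finset.sum_nonneg fun v _ => by positivity

omit [Fintype R] in
/-- the mass of the participants is below the look-ahead mass -/
theorem ww_ge (a : V → R → ℝ) (k : V → ℕ) (i : ℕ) (S : R) :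
    rr a (TT k i ∪ EE k i) S ≤ ww a k i S := by
  unfold rr ww
  have e : TT k i ∪ EE k i = Finset.univ.filter (fun v => i ≤ k v) := by
    ext v
    unfold TT EE
    simp only [Finset.mem_union, Finset.mem_filter, Finset.mem_univ, true_and]
    omega
  rw [e]
  apply Finset.sum_le_sum
  intro v _
  have h : (1 : ℝ) ≤ 40 ^ (k v - i) := one_le_pow₀ (by norm_num)
  nlinarith [sq_nonneg (a v S)]

omit [Fintype R] in
/-- the look-ahead mass is geometric -/
theorem ww_geo (a : V → R → ℝ) (k : V → ℕ) (i : ℕ) (S : R) :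
    40 * ww a k (i + 1) S ≤ ww a k i S := by
  rw [ww_eq, ww_eq, Finset.mul_sum]
  apply Finset.sum_le_sum
  intro v _
  by_cases h : i + 1 ≤ k v
  · rw [if_pos h, if_pos (by omega)]
    have : k v - i = (k v - (i + 1)) + 1 := by omega
    rw [this, pow_succ]
    apply le_of_eq
    ring
  · rw [if_neg h, mul_zero]
    split_ifs
    · positivity
    · exact le_refl _

omit [Fintype R] in
/-- raise one element -/
theorem ww_up (a : V → R → ℝ) (k : V → ℕ) (u : V) (j : ℕ) (S : R) :
    ww a k j S ≤ ww a (up k u) j S ∧ ww a (up k u) j S ≤ ww a k j S +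
      (if j ≤ k u + 1 then (a u S) ^ 2 * 40 ^ (k u + 1 - j) else 0) := by
  rw [ww_eq, ww_eq]
  constructor
  · apply Finset.sum_le_sum
    intro v _
    have h1 := up_ge k u v
    by_cases h : j ≤ k v
    · rw [if_pos h, if_pos (h.trans h1)]
      apply mul_le_mul_of_nonneg_left _ (sq_nonneg _)
      exact pow_le_pow_right₀ (by norm_num) (by omega)
    · rw [if_neg h]
      split_ifs
      · positivity
      · exact le_refl _
  · have h1 : ∑ v, (if j ≤ up k u v then (a v S) ^ 2 * 40 ^ (up k u v - j) else 0) ≤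
        ∑ v, ((if j ≤ k v then (a v S) ^ 2 * 40 ^ (k v - j) else 0) +
          (if v = u then (if j ≤ k u + 1 then (a u S) ^ 2 * 40 ^ (k u + 1 - j) else 0) else 0)) := by
      apply Finset.sum_le_sum
      intro v _
      by_cases hv : v = u
      · subst hv
        rw [up_self, if_pos rfl]
        have : 0 ≤ (if j ≤ k v then (a v S) ^ 2 * 40 ^ (k v - j) else 0) := by
          split_ifs
          · positivity
          · exact le_refl _
        linarith
      · rw [up_ne _ _ _ hv, if_neg hv, add_zero]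
    rw [Finset.sum_add_distrib, Finset.sum_ite_eq'] at h1
    simpa using h1

/-! ## the densities of the rows -/

theorem dn_cmp (l l' x : ℝ) (hl' : 0 < l') (hll : l' ≤ l) : dn l' x ≤ (l / l') ^ 3 * dn l x := by
  have hl : 0 < l := lt_of_lt_of_le hl' hll
  unfold dn
  have hJ := J0_pos
  have h1 : l' ^ 2 * (1 + (l * x) ^ 2) ≤ l ^ 2 * (1 + (l' * x) ^ 2) := by
    have : l' ^ 2 ≤ l ^ 2 := pow_le_pow_left₀ hl'.le hll 2
    nlinarith
  have h2 : (l' ^ 2 * (1 + (l * x) ^ 2)) ^ 2 ≤ (l ^ 2 * (1 + (l' * x) ^ 2)) ^ 2 :=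
    pow_le_pow_left₀ (by positivity) h1 2
  have e1 : l' / J0 * ((1 + (l' * x) ^ 2) ^ 2)⁻¹ = l' / (J0 * (1 + (l' * x) ^ 2) ^ 2) := by
    field_simp
  have e2 : (l / l') ^ 3 * (l / J0 * ((1 + (l * x) ^ 2) ^ 2)⁻¹) =
      l ^ 4 / (l' ^ 3 * (J0 * (1 + (l * x) ^ 2) ^ 2)) := by
    field_simp
  rw [e1, e2, div_le_div_iff₀ (by positivity) (by positivity)]
  have h3 := mul_le_mul_of_nonneg_left h2 hJ.le
  calc l' * (l' ^ 3 * (J0 * (1 + (l * x) ^ 2) ^ 2))
      = J0 * (l' ^ 2 * (1 + (l * x) ^ 2)) ^ 2 := by ring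
    _ ≤ J0 * (l ^ 2 * (1 + (l' * x) ^ 2)) ^ 2 := h3
    _ = _ := by ring

omit [Fintype R] in
theorem lam_pos (a : V → R → ℝ) (l0 δ : ℝ) (hl0 : 0 < l0) (hδ : 0 < δ) (k : V → ℕ) (i : ℕ) (S : R) :
    0 < lam a l0 δ k i S := by
  unfold lam
  have := ww_nonneg a k i S
  positivity

theorem rows_cmp (a : V → R → ℝ) (l0 δ : ℝ) (hl0 : 0 < l0) (hδ : 0 < δ) (k : V → ℕ) (u : V)
    (hu : ∑ S, (a u S) ^ 2 ≤ 1) (j : ℕ) (y : R → ℝ) :
    ∏ S, dn (lam a l0 δ (up k u) j S) (y S) ≤
      Real.exp (if j ≤ k u + 1 then 3 * δ * 40 ^ (k u + 1 - j) else 0) *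
        ∏ S, dn (lam a l0 δ k j S) (y S) := by
  set D : R → ℝ := fun S => (if j ≤ k u + 1 then (a u S) ^ 2 * 40 ^ (k u + 1 - j) else 0) with hD
  have h1 : ∏ S, dn (lam a l0 δ (up k u) j S) (y S) ≤
      ∏ S, (Real.exp (3 * δ * D S) * dn (lam a l0 δ k j S) (y S)) := by
    apply Finset.prod_le_prod
    · intro S _
      exact dn_nonneg _ _ (lam_pos a l0 δ hl0 hδ (up k u) j S)
    · intro S _
      obtain ⟨i1, i2⟩ := ww_up a k u j S
      have w0 := ww_nonneg a k j S
      have w1 := ww_nonneg a (up k u) j S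
      have hd := dn_nonneg _ (y S) (lam_pos a l0 δ hl0 hδ k j S)
      have hD0 : 0 ≤ D S := by
        rw [hD]
        dsimp only
        split_ifs
        · positivity
        · exact le_refl _
      have hle : lam a l0 δ (up k u) j S ≤ lam a l0 δ k j S := by
        unfold lam
        apply div_le_div_of_nonneg_left hl0.le (by positivity)
        have := mul_le_mul_of_nonneg_left i1 hδ.le
        linarith
      refine (dn_cmp _ _ (y S) (lam_pos a l0 δ hl0 hδ (up k u) j S) hle).trans ?_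
      apply mul_le_mul_of_nonneg_right _ hd
      have hrat : lam a l0 δ k j S / lam a l0 δ (up k u) j S ≤ Real.exp (δ * D S) := by
        have e : lam a l0 δ k j S / lam a l0 δ (up k u) j S =
            (1 + δ * ww a (up k u) j S) / (1 + δ * ww a k j S) := by
          unfold lam
          have h1 : (1 + δ * ww a k j S) ≠ 0 := by positivity
          have h2 : (1 + δ * ww a (up k u) j S) ≠ 0 := by positivity
          field_simp
        rw [e]
        have h3 : (1 + δ * ww a (up k u) j S) / (1 + δ * ww a k j S) ≤ 1 + δ * D S := by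
          rw [div_le_iff₀ (by positivity)]
          have h4 := mul_le_mul_of_nonneg_left i2 hδ.le
          have h5 : 0 ≤ δ * D S * (δ * ww a k j S) := by positivity
          have h6 : δ * (ww a k j S + D S) = δ * ww a k j S + δ * D S := by ring
          have h7 : (ww a k j S + (if j ≤ k u + 1 then (a u S) ^ 2 * 40 ^ (k u + 1 - j) else 0)) =
            ww a k j S + D S := rfl
          rw [h7, h6] at h4
          nlinarith
        have h8 := Real.add_one_le_exp (δ * D S)
        linarith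
      have hr0 : 0 ≤ lam a l0 δ k j S / lam a l0 δ (up k u) j S :=
        div_nonneg (lam_pos a l0 δ hl0 hδ k j S).le (lam_pos a l0 δ hl0 hδ (up k u) j S).le
      have h9 := pow_le_pow_left₀ hr0 hrat 3
      refine h9.trans (le_of_eq ?_)
      rw [← Real.exp_nat_mul]
      congr 1
      push_cast
      ring
  refine h1.trans ?_
  rw [Finset.prod_mul_distrib, ← Real.exp_sum]
  apply mul_le_mul_of_nonneg_right _ (Finset.prod_nonneg fun S _ =>
    dn_nonneg _ _ (lam_pos a l0 δ hl0 hδ k j S))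
  apply Real.exp_le_exp.mpr
  rw [← Finset.mul_sum]
  rw [hD]
  dsimp only
  by_cases hj : j ≤ k u + 1
  · simp only [if_pos hj]
    rw [← Finset.sum_mul]
    have : (∑ S, (a u S) ^ 2) * 40 ^ (k u + 1 - j) ≤ 1 * (40 : ℝ) ^ (k u + 1 - j) :=
      mul_le_mul_of_nonneg_right hu (by positivity)
    have h3 := mul_le_mul_of_nonneg_left this (show 0 ≤ 3 * δ by positivity)
    rw [one_mul] at h3
    exact h3
  · simp only [if_neg hj]
    simp

/-! ## the exponent of the elements -/

theorem xp_cmp (a : V → R → ℝ) (c : ℝ) (hc : 0 ≤ c) (k : V → ℕ) (u : V) (j : ℕ) (hj : j ≠ k u)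
    (y : R → ℝ) :
    xp a c (sw (up k u) j) (TT (up k u) j) (EE (up k u) j) y ≤
      xp a c (sw k j) (TT k j) (EE k j) y + (if j < k u then 1 / 3 else 0) +
        (if j = k u + 1 then c else 0) := by
  have h1 : ∑ v ∈ TT k j, ph (sw k j v * fn a v y) ≤
      ∑ v ∈ TT (up k u) j, ph (sw (up k u) j v * fn a v y) + (if j < k u then 1 / 3 else 0) := by
    rw [TT_up k u j hj]
    have h2 : ∑ v ∈ TT k j, ph (sw k j v * fn a v y) ≤
      ∑ v ∈ TT k j, (ph (sw (up k u) j v * fn a v y) +
        (if v = u then (if j < k u then 1 / 3 else 0) else 0)) := by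
      apply Finset.sum_le_sum
      intro v hv
      by_cases hvu : v = u
      · subst hvu
        have hv' : j < k v := by
          unfold TT at hv
          simpa using hv
        rw [if_pos rfl, if_pos hv']
        have e : sw (up k v) j v = sw k j v / 2 := by
          unfold sw
          rw [up_self]
          have : k v + 1 - j - 1 = (k v - j - 1) + 1 := by omega
          rw [this, pow_succ]
          field_simp
        rw [e]
        have h3 := Pool.Agent.Helper3.NFR.st_rat.2.2.2.1 (sw k j v * fn a v y)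
        have h4 : sw k j v / 2 * fn a v y = sw k j v * fn a v y / 2 := by ring
        rw [h4]
        linarith
      · rw [if_neg hvu, sw_ne k u v j hvu, add_zero]
    rw [Finset.sum_add_distrib] at h2
    have h5 : ∑ v ∈ TT k j, (if v = u then (if j < k u then (1 : ℝ) / 3 else 0) else 0) ≤
        (if j < k u then 1 / 3 else 0) := by
      rw [Finset.sum_ite_eq']
      split_ifs <;> norm_num
    linarith
  have h2 : ∑ v ∈ EE (up k u) j, ph (fn a v y) ≤ ∑ v ∈ EE k j, ph (fn a v y) +
      (if j = k u + 1 then 1 else 0) := by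
    by_cases hj2 : j = k u + 1
    · rw [if_pos hj2, hj2, EE_up1]
      have hu : u ∉ EE k (k u + 1) := by
        unfold EE
        simp
      rw [Finset.sum_insert hu]
      have := ph_le_one (fn a u y)
      linarith
    · rw [if_neg hj2, EE_up k u j hj hj2, add_zero]
  have h3 := mul_le_mul_of_nonneg_left h2 hc
  unfold xp
  have h4 : c * (if j = k u + 1 then (1 : ℝ) else 0) = (if j = k u + 1 then c else 0) := by
    split_ifs <;> simp
  rw [mul_add, h4] at h3
  linarith

/-- logarithm of the partition function at level `i` -/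
noncomputable def LZ (a : V → R → ℝ) (b l0 δ : ℝ) (k : V → ℕ) (i : ℕ) : ℝ :=
  Real.log (ZZ a b c0 (lam a l0 δ k i) (sw k i) (TT k i) (EE k i))

theorem lz_cmp (hC : ST_CMP) (a : V → R → ℝ) (b l0 δ : ℝ) (hb : 0 ≤ b) (hl0 : 0 < l0) (hδ : 0 < δ)
    (k : V → ℕ) (u : V) (hu : ∑ S, (a u S) ^ 2 ≤ 1) (j : ℕ) (hj : j ≠ k u) :
    LZ a b l0 δ (up k u) j ≤ LZ a b l0 δ k j + ((if j < k u then b / 3 else 0) +
      (if j ≤ k u + 1 then 3 * δ * 40 ^ (k u + 1 - j) else 0) +
      (if j = k u + 1 then b * c0 else 0)) := by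
  unfold LZ
  rw [add_comm (Real.log _)]
  refine hC V R a b c0 _ (lam a l0 δ k j) (lam a l0 δ (up k u) j) (sw k j) (sw (up k u) j)
    (TT k j) (EE k j) (TT (up k u) j) (EE (up k u) j) hb c0_pos.le
    (lam_pos a l0 δ hl0 hδ k j) (lam_pos a l0 δ hl0 hδ (up k u) j) ?_
  intro y
  have h1 := rows_cmp a l0 δ hl0 hδ k u hu j y
  have h2 := xp_cmp a c0 c0_pos.le k u j hj y
  unfold wt
  set P := ∏ S, dn (lam a l0 δ k j S) (y S)
  set P' := ∏ S, dn (lam a l0 δ (up k u) j S) (y S)
  have hP : 0 ≤ P := Finset.prod_nonneg fun S _ => dn_nonneg _ _ (lam_pos a l0 δ hl0 hδ k j S)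
  have h3 : Real.exp (b * xp a c0 (sw (up k u) j) (TT (up k u) j) (EE (up k u) j) y) ≤
      Real.exp ((if j < k u then b / 3 else 0) + (if j = k u + 1 then b * c0 else 0)) *
      Real.exp (b * xp a c0 (sw k j) (TT k j) (EE k j) y) := by
    rw [← Real.exp_add]
    apply Real.exp_le_exp.mpr
    have h4 := mul_le_mul_of_nonneg_left h2 hb
    have e1 : b * (if j < k u then (1 : ℝ) / 3 else 0) = (if j < k u then b / 3 else 0) := by
      split_ifs <;> ring
    have e2 : b * (if j = k u + 1 then c0 else 0) = (if j = k u + 1 then b * c0 else 0) := by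
      split_ifs <;> simp
    rw [mul_add, mul_add, e1, e2] at h4
    linarith
  calc P' * Real.exp (b * xp a c0 (sw (up k u) j) (TT (up k u) j) (EE (up k u) j) y)
      ≤ (Real.exp (if j ≤ k u + 1 then 3 * δ * 40 ^ (k u + 1 - j) else 0) * P) *
        (Real.exp ((if j < k u then b / 3 else 0) + (if j = k u + 1 then b * c0 else 0)) *
        Real.exp (b * xp a c0 (sw k j) (TT k j) (EE k j) y)) :=
        mul_le_mul h1 h3 (Real.exp_pos _).le (mul_nonneg (Real.exp_pos _).le hP)
    _ = _ := by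
      generalize (if j < k u then b / 3 else 0) = A1
      generalize (if j ≤ k u + 1 then 3 * δ * 40 ^ (k u + 1 - j) else 0) = A2
      generalize (if j = k u + 1 then b * c0 else 0) = A3
      rw [show A1 + A2 + A3 = A2 + (A1 + A3) by ring, Real.exp_add A2]
      ring

theorem lz_gain (hC : ST_CMP) (hG : ST_GAIN) (a : V → R → ℝ) (b l0 δ : ℝ) (hb : 0 ≤ b)
    (hb1 : b ≤ 1) (hl0 : 0 < l0) (hδ : 0 < δ)
    (k : V → ℕ) (u : V) (hu : ∑ S, (a u S) ^ 2 ≤ 1)
    (hH : ¬ Happy a b c0 (1 / 100) (lam a l0 δ k (k u)) (sw k (k u)) (TT k (k u)) (EE k (k u)) u) :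
    LZ a b l0 δ (up k u) (k u) ≤ LZ a b l0 δ k (k u) - b / 200 + 3 * δ * 40 := by
  unfold LZ
  have h1 := hG V R a b c0 (1 / 100) (lam a l0 δ k (k u)) (sw k (k u)) (sw (up k u) (k u))
    (TT k (k u)) (EE k (k u)) u hb hb1 c0_pos.le (by norm_num) (lam_pos a l0 δ hl0 hδ k (k u))
    (by unfold EE; simp) (by unfold TT; simp) (by unfold sw; rw [up_self]; simp)
    (fun v hv => sw_ne k u v (k u) hv) hH
  have h2 := hC V R a b c0 (3 * δ * 40) (lam a l0 δ k (k u)) (lam a l0 δ (up k u) (k u))
    (sw (up k u) (k u)) (sw (up k u) (k u))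
    (insert u (TT k (k u))) ((EE k (k u)).erase u) (insert u (TT k (k u))) ((EE k (k u)).erase u)
    hb c0_pos.le (lam_pos a l0 δ hl0 hδ k (k u)) (lam_pos a l0 δ hl0 hδ (up k u) (k u)) (by
      intro y
      have h3 := rows_cmp a l0 δ hl0 hδ k u hu (k u) y
      rw [if_pos (by omega), show k u + 1 - k u = 1 by omega, pow_one] at h3
      unfold wt
      rw [← mul_assoc]
      exact mul_le_mul_of_nonneg_right h3 (Real.exp_pos _).le)
  rw [TT_up0, EE_up0]
  linarith

end Pool.Agent.Helper90.KOM
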