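import Pool.Agent.Helper90.KOM.Rank

/-! # module 9: the rank function, sums and minimisation (real matrices) -/

namespace Pool.Agent.Helper90.KOM

open Finset MeasureTheory
open scoped Classical
open Pool.Agent.Helper3.NFR (ph ps J0 dn sw TT EE c0 Ga up up_self up_ne up_ge sw_ne TT_up EE_up
  EE_up1 TT_up0 EE_up0 Ga_pos c0_pos geo ite_sum TT_sum dn_nonneg J0_pos ph_nonneg ph_le_one)

variable {V R : Type} [Fintype V] [Fintype R]

theorem gg (m : ℕ) : ∑ j ∈ range (m + 1), Ga ^ j * 40 ^ (m - j) ≤ Ga ^ (m + 1) / 1561 := by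
  have h := (Commute.all Ga (40 : ℝ)).geom_sum₂_mul (m + 1)
  have h1 : Ga - 40 = 1561 := by unfold Ga; norm_num
  rw [h1] at h
  have h2 : (0 : ℝ) ≤ 40 ^ (m + 1) := by positivity
  rw [le_div_iff₀ (by norm_num)]
  have h3 : ∑ j ∈ range (m + 1), Ga ^ j * (40 : ℝ) ^ (m - j) =
      ∑ i ∈ range (m + 1), Ga ^ i * (40 : ℝ) ^ (m + 1 - 1 - i) := by
    apply Finset.sum_congr rfl
    intro j _
    rw [Nat.add_sub_cancel]
  rw [h3, h]
  linarith

theorem look_sum (N m : ℕ) (x : ℝ) (hx : 0 ≤ x) :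
    ∑ j ∈ range N, Ga ^ j * (if j ≤ m then x * 40 ^ (m - j) else 0) ≤ x * (Ga ^ (m + 1) / 1561) := by
  have hG := Ga_pos
  have h1 : ∑ j ∈ range N, Ga ^ j * (if j ≤ m then x * 40 ^ (m - j) else 0) =
      ∑ j ∈ (range N).filter (fun j => j ≤ m), x * (Ga ^ j * 40 ^ (m - j)) := by
    rw [Finset.sum_filter]
    exact Finset.sum_congr rfl fun j _ => by split_ifs <;> ring
  rw [h1, ← Finset.mul_sum]
  apply mul_le_mul_of_nonneg_left _ hx
  refine le_trans ?_ (gg m)
  apply Finset.sum_le_sum_of_subset_of_nonneg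
  · intro j hj
    simp only [Finset.mem_filter, Finset.mem_range] at hj ⊢
    omega
  · intro j _ _
    positivity

theorem Ga_geo (m : ℕ) : Ga ^ m = 1600 * ∑ j ∈ range m, Ga ^ j + 1 := by
  have h : Ga ≠ 1 := by unfold Ga; norm_num
  rw [geom_sum_eq h]
  have h1 : Ga - 1 = 1600 := by unfold Ga; norm_num
  rw [h1]
  ring

/-- total look-ahead mass -/
theorem ww_sum (a : V → R → ℝ) (ha : ∀ v, ∑ S, (a v S) ^ 2 ≤ 1) (k : V → ℕ) (N : ℕ)
    (hk : ∀ v, k v ≤ N) :
    ∑ j ∈ range N, Ga ^ j * ∑ S, ww a k j S ≤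
      1601 / 1561 * (1600 * ∑ j ∈ range N, Ga ^ j * ((TT k j).card : ℝ) + Fintype.card V) := by
  have hG := Ga_pos
  have h1 : ∀ j, ∑ S, ww a k j S ≤ ∑ v, (if j ≤ k v then (1 : ℝ) * 40 ^ (k v - j) else 0) := by
    intro j
    have h2 : ∑ S, ww a k j S = ∑ v, ∑ S, (if j ≤ k v then (a v S) ^ 2 * 40 ^ (k v - j) else 0) := by
      rw [Finset.sum_comm]
      exact Finset.sum_congr rfl fun S _ => ww_eq a k j S
    rw [h2]
    apply Finset.sum_le_sum
    intro v _
    by_cases h : j ≤ k v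
    · simp only [if_pos h]
      rw [← Finset.sum_mul]
      exact mul_le_mul_of_nonneg_right (ha v) (by positivity)
    · simp [if_neg h]
  have h3 : ∑ j ∈ range N, Ga ^ j * ∑ S, ww a k j S ≤
      ∑ v, ∑ j ∈ range N, Ga ^ j * (if j ≤ k v then (1 : ℝ) * 40 ^ (k v - j) else 0) := by
    rw [Finset.sum_comm]
    apply Finset.sum_le_sum
    intro j _
    rw [← Finset.mul_sum]
    exact mul_le_mul_of_nonneg_left (h1 j) (by positivity)
  refine h3.trans ?_
  rw [TT_sum k N hk]
  have h4 : ∀ v, ∑ j ∈ range N, Ga ^ j * (if j ≤ k v then (1 : ℝ) * 40 ^ (k v - j) else 0) ≤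
      1601 / 1561 * (1600 * ∑ j ∈ range (k v), Ga ^ j + 1) := by
    intro v
    refine (look_sum N (k v) 1 (by norm_num)).trans (le_of_eq ?_)
    rw [← Ga_geo, pow_succ, one_mul]
    unfold Ga
    ring
  refine (Finset.sum_le_sum fun v _ => h4 v).trans (le_of_eq ?_)
  rw [← Finset.mul_sum, Finset.sum_add_distrib, ← Finset.mul_sum]
  simp

/-- the functional which is minimised -/
noncomputable def WW (a : V → R → ℝ) (b l0 δ : ℝ) (N : ℕ) (k : V → ℕ) : ℝ :=
  ∑ j ∈ range N, Ga ^ j * (LZ a b l0 δ k j + b / 1600 * (TT k j).card)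

theorem W_low (a : V → R → ℝ) (ha : ∀ v, ∑ S, (a v S) ^ 2 ≤ 1) (b l0 δ : ℝ) (hb : 0 < b)
    (hl0 : 0 < l0) (hδ : δ = b / 20000000) (N : ℕ)
    (k : V → ℕ) (hk : ∀ v, k v ≤ N) (C : ℝ)
    (hlow : ∀ (V R : Type) [Fintype V] [Fintype R] (a : V → R → ℝ) (b c l0 : ℝ)
      (x : R → ℝ) (s : V → ℝ) (T E : Finset V), 0 ≤ b → 0 ≤ c → 0 < l0 →
      (∀ v, ∑ S, (a v S) ^ 2 ≤ 1) → (∀ S, 0 ≤ x S) → (∀ v, 0 ≤ s v) → (∀ v, s v ≤ 1) →
      - (∑ S, x S) - C * b / l0 ^ 2 * T.card ≤
        Real.log (ZZ a b c (fun S => l0 / (1 + x S)) s T E))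
    (hC : C * b / l0 ^ 2 ≤ b / 6400) :
    b / 3200 * ∑ j ∈ range N, Ga ^ j * ((TT k j).card : ℝ) - b * Fintype.card V ≤
      WW a b l0 δ N k := by
  have hG := Ga_pos
  have hδ0 : 0 < δ := by rw [hδ]; positivity
  -- each level
  have h1 : ∀ j, -(δ * ∑ S, ww a k j S) - b / 6400 * (TT k j).card ≤ LZ a b l0 δ k j := by
    intro j
    have h2 := hlow V R a b c0 l0 (fun S => δ * ww a k j S) (sw k j) (TT k j) (EE k j) hb.le
      c0_pos.le hl0 ha (fun S => mul_nonneg hδ0.le (ww_nonneg a k j S))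
      (fun v => by unfold sw; positivity) (fun v => by
        unfold sw
        rw [div_le_one (by positivity)]
        exact one_le_pow₀ (by norm_num))
    have h3 : LZ a b l0 δ k j = Real.log (ZZ a b c0 (fun S => l0 / (1 + δ * ww a k j S)) (sw k j)
      (TT k j) (EE k j)) := rfl
    rw [h3]
    refine le_trans ?_ h2
    have h6 : C * b / l0 ^ 2 * ((TT k j).card : ℝ) ≤ b / 6400 * (TT k j).card :=
      mul_le_mul_of_nonneg_right hC (Nat.cast_nonneg _)
    rw [← Finset.mul_sum]
    linarith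
  have h8 := ww_sum a ha k N hk
  set Q := ∑ j ∈ range N, Ga ^ j * ∑ S, ww a k j S with hQ
  set B := ∑ j ∈ range N, Ga ^ j * ((TT k j).card : ℝ) with hB
  have hB0 : 0 ≤ B := Finset.sum_nonneg fun j _ => by positivity
  have hn0 : (0 : ℝ) ≤ Fintype.card V := Nat.cast_nonneg _
  unfold WW
  have h16 : ∑ j ∈ range N, Ga ^ j * (-(δ * ∑ S, ww a k j S)
      - b / 6400 * (TT k j).card + b / 1600 * (TT k j).card) ≤
      ∑ j ∈ range N, Ga ^ j * (LZ a b l0 δ k j + b / 1600 * (TT k j).card) := by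
    apply Finset.sum_le_sum
    intro j _
    apply mul_le_mul_of_nonneg_left _ (by positivity)
    have := h1 j
    linarith
  refine le_trans ?_ h16
  have h17 : ∑ j ∈ range N, Ga ^ j * (-(δ * ∑ S, ww a k j S)
      - b / 6400 * (TT k j).card + b / 1600 * (TT k j).card) =
      - (δ * Q) + (b / 1600 - b / 6400) * B := by
    rw [hB, hQ, Finset.mul_sum, Finset.mul_sum, ← Finset.sum_neg_distrib,
      ← Finset.sum_add_distrib]
    apply Finset.sum_congr rfl
    intro j _
    ring
  rw [h17]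
  have h18 := mul_le_mul_of_nonneg_left h8 hδ0.le
  have h19 : δ * (1601 / 1561 * (1600 * B + (Fintype.card V : ℝ))) ≤
      b / 6400 * B + b * Fintype.card V := by
    have h20 : 0 ≤ b * B := mul_nonneg hb.le hB0
    have h21 : 0 ≤ b * (Fintype.card V : ℝ) := mul_nonneg hb.le hn0
    have e : δ * (1601 / 1561 * (1600 * B + (Fintype.card V : ℝ))) =
        (b * B) * (1601 * 1600 / (1561 * 20000000)) +
        (b * (Fintype.card V : ℝ)) * (1601 / (1561 * 20000000)) := by
      rw [hδ]; ring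
    rw [e]
    linarith
  have h22 : (b / 1600 - b / 6400) * B = b / 3200 * B + b / 6400 * B := by ring
  rw [h22]
  linarith

theorem W_up (hCM : ST_CMP) (hGA : ST_GAIN) (a : V → R → ℝ) (ha : ∀ v, ∑ S, (a v S) ^ 2 ≤ 1)
    (b l0 δ : ℝ) (hb : 0 < b) (hb1 : b ≤ 1) (hl0 : 0 < l0) (hδ : δ = b / 20000000) (N : ℕ)
    (k : V → ℕ) (u : V) (hu : k u < N)
    (hH : ¬ Happy a b c0 (1 / 100) (lam a l0 δ k (k u)) (sw k (k u)) (TT k (k u)) (EE k (k u)) u) :
    WW a b l0 δ N (up k u) < WW a b l0 δ N k := by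
  have hG := Ga_pos
  have hδ0 : 0 < δ := by rw [hδ]; positivity
  have hlev : ∀ j, LZ a b l0 δ (up k u) j + b / 1600 * (TT (up k u) j).card ≤
      LZ a b l0 δ k j + b / 1600 * (TT k j).card + ((if j < k u then b / 3 else 0) +
      (if j ≤ k u + 1 then (3 * δ) * 40 ^ (k u + 1 - j) else 0) +
      (if j = k u + 1 then b * c0 else 0) +
      (if j = k u then - b / 200 + b / 1600 else 0)) := by
    intro j
    by_cases hj : j = k u
    · have h1 := lz_gain hCM hGA a b l0 δ hb.le hb1 hl0 hδ0 k u (ha u) hH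
      have h2 : (TT (up k u) (k u)).card = (TT k (k u)).card + 1 := by
        rw [TT_up0]
        apply Finset.card_insert_of_notMem
        unfold TT
        simp
      rw [hj, h2, if_neg (lt_irrefl _), if_pos (by omega), if_neg (by omega), if_pos rfl,
        show k u + 1 - k u = 1 by omega, pow_one]
      push_cast
      linarith
    · have h1 := lz_cmp hCM a b l0 δ hb.le hl0 hδ0 k u (ha u) j hj
      rw [TT_up k u j hj, if_neg hj]
      linarith
  unfold WW
  have h2 : ∑ j ∈ range N, Ga ^ j * (LZ a b l0 δ (up k u) j + b / 1600 * (TT (up k u) j).card) ≤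
      ∑ j ∈ range N, (Ga ^ j * (LZ a b l0 δ k j + b / 1600 * (TT k j).card) +
      (Ga ^ j * (if j < k u then b / 3 else 0) +
      Ga ^ j * (if j ≤ k u + 1 then (3 * δ) * 40 ^ (k u + 1 - j) else 0) +
      Ga ^ j * (if j = k u + 1 then b * c0 else 0) +
      Ga ^ j * (if j = k u then - b / 200 + b / 1600 else 0))) := by
    apply Finset.sum_le_sum
    intro j _
    have := mul_le_mul_of_nonneg_left (hlev j) (show 0 ≤ Ga ^ j by positivity)
    refine this.trans (le_of_eq ?_)
    generalize (if j < k u then b / 3 else 0) = A1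
    generalize (if j ≤ k u + 1 then (3 * δ) * 40 ^ (k u + 1 - j) else 0) = A2
    generalize (if j = k u + 1 then b * c0 else 0) = A3
    generalize (if j = k u then - b / 200 + b / 1600 else 0) = A4
    ring
  refine lt_of_le_of_lt h2 ?_
  rw [Finset.sum_add_distrib, Finset.sum_add_distrib, Finset.sum_add_distrib, Finset.sum_add_distrib]
  have s1 : ∑ j ∈ range N, Ga ^ j * (if j < k u then b / 3 else 0) ≤ Ga ^ (k u) / 1600 * (b / 3) :=
    (ite_sum N (k u) (b / 3) (by positivity)).trans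
      (mul_le_mul_of_nonneg_right (geo _) (by positivity))
  have s2 := look_sum N (k u + 1) (3 * δ) (by positivity)
  have s3 : ∑ j ∈ range N, Ga ^ j * (if j = k u + 1 then b * c0 else 0) ≤ Ga ^ (k u + 1) * (b * c0) := by
    have : ∀ j, Ga ^ j * (if j = k u + 1 then b * c0 else 0) =
        (if j = k u + 1 then Ga ^ (k u + 1) * (b * c0) else 0) := by
      intro j
      split_ifs with h
      · rw [h]
      · simp
    simp only [this, Finset.sum_ite_eq']
    have hc := c0_pos
    split_ifs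
    · exact le_refl _
    · positivity
  have s4 : ∑ j ∈ range N, Ga ^ j * (if j = k u then - b / 200 + b / 1600 else 0) =
      Ga ^ (k u) * (- b / 200 + b / 1600) := by
    have : ∀ j, Ga ^ j * (if j = k u then - b / 200 + b / 1600 else 0) =
        (if j = k u then Ga ^ (k u) * (- b / 200 + b / 1600) else 0) := by
      intro j
      split_ifs with h
      · rw [h]
      · simp
    simp only [this, Finset.sum_ite_eq', Finset.mem_range, hu, if_true]
  have s2' : 3 * δ * (Ga ^ (k u + 1 + 1) / 1561) ≤ Ga ^ (k u) * (b / 1600) := by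
    rw [hδ, pow_succ, pow_succ]
    have hGv : Ga = 1601 := rfl
    have hp : 0 ≤ Ga ^ (k u) * b := by positivity
    have e : 3 * (b / 20000000) * (Ga ^ (k u) * Ga * Ga / 1561) =
        (Ga ^ (k u) * b) * (3 / 20000000 * (Ga * Ga) / 1561) := by ring
    rw [e]
    have e2 : (3 / 20000000 * (Ga * Ga) / 1561 : ℝ) ≤ 1 / 1600 := by
      unfold Ga; norm_num
    have := mul_le_mul_of_nonneg_left e2 hp
    linarith
  have s3' : Ga ^ (k u + 1) * (b * c0) = Ga ^ (k u) * (b / 1600) := by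
    rw [pow_succ]
    unfold Ga c0
    ring
  have hpos : 0 < Ga ^ (k u) * b := by positivity
  nlinarith

theorem st_rank (hCM : ST_CMP) (hGA : ST_GAIN) (hLO : ST_LOW) (hUP : ST_UP) : ST_RANK := by
  intro b hb hb1
  obtain ⟨Cl, hCl, hlow⟩ := hLO
  have hG := Ga_pos
  set δ : ℝ := b / 20000000 with hδ
  have hδ0 : 0 < δ := by rw [hδ]; positivity
  set l0 : ℝ := Real.sqrt (6400 * Cl) with hl0d
  have hl0 : 0 < l0 := Real.sqrt_pos.mpr (by positivity)
  have hl0sq : l0 ^ 2 = 6400 * Cl := Real.sq_sqrt (by positivity)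
  refine ⟨δ, l0, hδ0, by rw [hδ]; linarith, hl0, ?_⟩
  intro V R _ _ a ha
  have hn0 : (0 : ℝ) ≤ Fintype.card V := Nat.cast_nonneg _
  -- number of levels
  obtain ⟨K0, hK0⟩ := pow_unbounded_of_one_lt ((b * c0 + b) * Fintype.card V / (b / 3200))
    (show (1 : ℝ) < Ga by unfold Ga; norm_num)
  set N := K0 + 1 with hN
  -- minimise
  obtain ⟨κ, -, hκ⟩ := Finset.exists_min_image (Finset.univ : Finset (V → Fin (N + 1)))
    (fun κ => WW a b l0 δ N (fun v => (κ v : ℕ))) ⟨fun _ => 0, Finset.mem_univ _⟩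
  set k : V → ℕ := fun v => (κ v : ℕ) with hk
  have hkN : ∀ v, k v ≤ N := fun v => Nat.lt_succ_iff.mp (κ v).2
  have hmin : ∀ k' : V → ℕ, (∀ v, k' v ≤ N) → WW a b l0 δ N k ≤ WW a b l0 δ N k' := by
    intro k' hk'
    have := hκ (fun v => ⟨k' v, Nat.lt_succ_iff.mpr (hk' v)⟩) (Finset.mem_univ _)
    exact this
  have hW0 : WW a b l0 δ N k ≤ b * c0 * Fintype.card V := by
    refine (hmin (fun _ => 0) (fun _ => Nat.zero_le _)).trans ?_
    unfold WW
    have h1 : ∀ j ∈ range N, Ga ^ j * (LZ a b l0 δ (fun _ => 0) j +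
        b / 1600 * ((TT (fun _ : V => 0) j).card : ℝ)) ≤
        (if j = 0 then b * c0 * Fintype.card V else 0) := by
      intro j _
      have hT : TT (fun _ : V => 0) j = ∅ := by
        unfold TT; simp
      have h2 := hUP V R a b c0 (lam a l0 δ (fun _ => 0) j) (sw (fun _ => 0) j)
        (TT (fun _ => 0) j) (EE (fun _ => 0) j) hb.le c0_pos.le (lam_pos a l0 δ hl0 hδ0 _ j)
      have h3 : LZ a b l0 δ (fun _ => 0) j ≤ b * c0 * ((EE (fun _ : V => 0) j).card : ℝ) := h2
      rw [hT, Finset.card_empty, Nat.cast_zero, mul_zero, add_zero]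
      by_cases hj : j = 0
      · rw [if_pos hj, hj, pow_zero, one_mul]
        rw [hj] at h3
        have h4 : EE (fun _ : V => 0) 0 = Finset.univ := by
          unfold EE; simp
        rw [h4, Finset.card_univ] at h3
        exact h3
      · rw [if_neg hj]
        have h4 : EE (fun _ : V => 0) j = ∅ := by
          unfold EE
          simp [Ne.symm hj]
        rw [h4, Finset.card_empty, Nat.cast_zero, mul_zero] at h3
        exact mul_nonpos_of_nonneg_of_nonpos (by positivity) h3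
    refine (Finset.sum_le_sum h1).trans ?_
    rw [Finset.sum_ite_eq']
    have hc := c0_pos
    split_ifs
    · exact le_refl _
    · positivity
  have hCb : Cl * b / l0 ^ 2 ≤ b / 6400 := by
    rw [hl0sq]
    apply le_of_eq
    field_simp
  have hWl := W_low a ha b l0 δ hb hl0 hδ N k hkN Cl hlow hCb
  -- the last level is empty
  have hlast : ∀ v, k v < N := by
    intro v
    by_contra hcon
    push Not at hcon
    have h1 : 1 ≤ (TT k K0).card := by
      apply Finset.card_pos.mpr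
      refine ⟨v, ?_⟩
      unfold TT
      simp only [Finset.mem_filter, Finset.mem_univ, true_and]
      omega
    have h2 : Ga ^ K0 * ((TT k K0).card : ℝ) ≤ ∑ j ∈ range N, Ga ^ j * ((TT k j).card : ℝ) :=
      Finset.single_le_sum (f := fun j => Ga ^ j * ((TT k j).card : ℝ))
        (fun j _ => by positivity) (Finset.mem_range.mpr (by omega))
    have h3 : Ga ^ K0 * 1 ≤ Ga ^ K0 * ((TT k K0).card : ℝ) :=
      mul_le_mul_of_nonneg_left (by exact_mod_cast h1) (by positivity)
    have h4 : b / 3200 * Ga ^ K0 ≤ (b * c0 + b) * Fintype.card V := by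
      have := mul_le_mul_of_nonneg_left (h3.trans h2) (show 0 ≤ b / 3200 by positivity)
      linarith
    rw [div_lt_iff₀ (by positivity)] at hK0
    linarith
  refine ⟨k, ?_⟩
  intro i u hu
  have hui : k u = i := by
    unfold EE at hu
    simpa using hu
  by_contra hH
  rw [← hui] at hH
  have h1 := W_up hCM hGA a ha b l0 δ hb hb1 hl0 hδ N k u (hlast u) hH
  have h2 := hmin (up k u) (by
    intro v
    by_cases hv : v = u
    · rw [hv, up_self]
      have := hlast u
      omega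
    · rw [up_ne _ _ _ hv]
      exact hkN v)
  linarith

end Pool.Agent.Helper90.KOM
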